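import Pool.Agent.Helper12.MA.StB
import Pool.Agent.Helper12.MA.Lib

/-!
# Project MA, module RIM
-/

set_option autoImplicit false

namespace Pool.Agent.Helper85.MA

open Pool.Agent.Helper12.MA
open Pool.Agent.Helper51.AJ (IsMinor Planar Apex ExMinor Con Tch)
open Pool.Agent.Helper12.NK (rst Kc add cnt Pcy IsFace Cof plus)

/-- the position as an element of `ZMod 8` -/
private def zi (i : Fin 8) : ZMod 8 := i

private theorem rimpos : ∀ i j : Fin 8, i < j → zi i + ((j.val - i.val : ℕ) : ZMod 8) = zi j := by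
  decide

/-- the rim -/
private def rim {V : Type} {M : SimpleGraph V} {U : Set V} (p q r r' : V)
    (F1 F2 F3 F4 : {F : Set V // IsFace M U F}) : ZMod 8 → V ⊕ {F : Set V // IsFace M U F} :=
  ![Sum.inl p, Sum.inr F1, Sum.inl r, Sum.inr F2, Sum.inl q, Sum.inr F3, Sum.inl r', Sum.inr F4]

private theorem mem_rim {V : Type} {M : SimpleGraph V} {U : Set V} {p q r r' : V} {f1 f2 f3 f4 : Set V}
    (i1 : IsFace M U f1) (i2 : IsFace M U f2) (i3 : IsFace M U f3) (i4 : IsFace M U f4)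
    {A : Set V} {T : Set (Set V)} {i : Fin 8} (h : on p q r r' f1 f2 f3 f4 A T i) :
    rim p q r r' ⟨f1, i1⟩ ⟨f2, i2⟩ ⟨f3, i3⟩ ⟨f4, i4⟩ i ∈ mk M U A T := by
  rcases h with ⟨rfl, h⟩ | ⟨rfl, h⟩ | ⟨rfl, h⟩ | ⟨rfl, h⟩ | ⟨rfl, h⟩ | ⟨rfl, h⟩ | ⟨rfl, h⟩ | ⟨rfl, h⟩
  · exact Or.inl ⟨p, h, rfl⟩
  · exact Or.inr ⟨⟨f1, i1⟩, h, rfl⟩
  · exact Or.inl ⟨r, h, rfl⟩
  · exact Or.inr ⟨⟨f2, i2⟩, h, rfl⟩
  · exact Or.inl ⟨q, h, rfl⟩
  · exact Or.inr ⟨⟨f3, i3⟩, h, rfl⟩
  · exact Or.inl ⟨r', h, rfl⟩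
  · exact Or.inr ⟨⟨f4, i4⟩, h, rfl⟩

private theorem inl_mk {V : Type} {M : SimpleGraph V} {U A : Set V} {T : Set (Set V)} {a : V}
    (h : (Sum.inl a : V ⊕ {F : Set V // IsFace M U F}) ∈ mk M U A T) : a ∈ A := by
  rcases h with ⟨b, hb, h⟩ | ⟨F, _, h⟩
  · rw [Sum.inl.injEq] at h
    rw [h]
    exact hb
  · cases h

private theorem inr_mk {V : Type} {M : SimpleGraph V} {U A : Set V} {T : Set (Set V)}
    {F : {F : Set V // IsFace M U F}}
    (h : (Sum.inr F : V ⊕ {F : Set V // IsFace M U F}) ∈ mk M U A T) : F.1 ∈ T := by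
  rcases h with ⟨b, _, h⟩ | ⟨F', hF, h⟩
  · cases h
  · rw [Sum.inr.injEq] at h
    rw [h]
    exact hF

theorem hRIM (hWHE : StWHE) (hBAS : StBAS) : StRIM := by
  intro V _ G z v p q r r' f1 f2 f3 f4 h A B T S hA hB dAB dTS zA zB i j k l hij hjk hkl oi oj ok ol
  obtain ⟨n1, n2, n3, n4, n5, n6, n7, n8, n9, n10⟩ := h.ds.ne
  have hK : Kc 3 (dl G p q) {v}ᶜ := (hBAS V G h.bh).2.2.2.2.1 v p q
  have hP : Planar (plus (dl G p q) {v}ᶜ) := nPLS V (dl G p q) {v}ᶜ hK h.ds.pl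
  have zv : G.Adj z v := (h.ds.nb v).2 (Or.inl rfl)
  have zp : G.Adj z p := (h.ds.nb p).2 (Or.inr (Or.inl rfl))
  have zq : G.Adj z q := (h.ds.nb q).2 (Or.inr (Or.inr (Or.inl rfl)))
  have zr : G.Adj z r := (h.ds.nb r).2 (Or.inr (Or.inr (Or.inr (Or.inl rfl))))
  have zs : G.Adj z r' := (h.ds.nb r').2 (Or.inr (Or.inr (Or.inr (Or.inr rfl))))
  have hadj : ∀ a, G.Adj z a → a ≠ v → (plus (dl G p q) {v}ᶜ).Adj (Sum.inl z) (Sum.inl a) := by
    intro a ha hav
    exact ⟨⟨ha, fun k => zp.ne k.1, fun k => zq.ne k.1⟩, zv.ne, hav⟩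
  have e12 : f1 ≠ f2 := by
    intro e
    have : p ∈ f1 ∩ f2 := ⟨h.p1, e ▸ h.p1⟩
    rw [h.x12] at this
    rcases this with k | k
    · exact zp.ne k.symm
    · exact n6 k
  have e13 : f1 ≠ f3 := by
    intro e
    have : p ∈ f1 ∩ f3 := ⟨h.p1, e ▸ h.p1⟩
    rw [h.x13] at this
    exact zp.ne this.symm
  have e14 : f1 ≠ f4 := by
    intro e
    have : r ∈ f4 ∩ f1 := ⟨e ▸ h.r1, h.r1⟩
    rw [h.x41] at this
    rcases this with k | k
    · exact zr.ne k.symm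
    · exact n6 k.symm
  have e23 : f2 ≠ f3 := by
    intro e
    have : r ∈ f2 ∩ f3 := ⟨h.r2, e ▸ h.r2⟩
    rw [h.x23] at this
    rcases this with k | k
    · exact zr.ne k.symm
    · exact n8 k.symm
  have e24 : f2 ≠ f4 := by
    intro e
    have : r ∈ f2 ∩ f4 := ⟨h.r2, e ▸ h.r2⟩
    rw [h.x24] at this
    exact zr.ne this.symm
  have e34 : f3 ≠ f4 := by
    intro e
    have : q ∈ f3 ∩ f4 := ⟨h.q3, e ▸ h.q3⟩
    rw [h.x34] at this
    rcases this with k | k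
    · exact zq.ne k.symm
    · exact n9 k
  set F1 : {F : Set V // IsFace (dl G p q) {v}ᶜ F} := ⟨f1, h.i1⟩ with hF1
  set F2 : {F : Set V // IsFace (dl G p q) {v}ᶜ F} := ⟨f2, h.i2⟩ with hF2
  set F3 : {F : Set V // IsFace (dl G p q) {v}ᶜ F} := ⟨f3, h.i3⟩ with hF3
  set F4 : {F : Set V // IsFace (dl G p q) {v}ᶜ F} := ⟨f4, h.i4⟩ with hF4
  have E12 : F1 ≠ F2 := fun e => e12 (congrArg Subtype.val e)
  have E13 : F1 ≠ F3 := fun e => e13 (congrArg Subtype.val e)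
  have E14 : F1 ≠ F4 := fun e => e14 (congrArg Subtype.val e)
  have E23 : F2 ≠ F3 := fun e => e23 (congrArg Subtype.val e)
  have E24 : F2 ≠ F4 := fun e => e24 (congrArg Subtype.val e)
  have E34 : F3 ≠ F4 := fun e => e34 (congrArg Subtype.val e)
  refine hWHE _ (plus (dl G p q) {v}ᶜ) 8 (rim p q r r' F1 F2 F3 F4) (Sum.inl z)
    (mk (dl G p q) {v}ᶜ A T) (mk (dl G p q) {v}ᶜ B S) hP (by norm_num) ?_ ?_ ?_ ?_ hA hB ?_ ?_ ?_ ?_
  · intro a b hab
    have key : ∀ a b : Fin 8, rim p q r r' F1 F2 F3 F4 a = rim p q r r' F1 F2 F3 F4 b → a = b := by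
      intro a b
      fin_cases a <;> fin_cases b <;> simp [rim] <;> first | assumption | (intro hh; exact absurd hh (by first | assumption | exact Ne.symm (by assumption)))
    exact key a b hab
  · have key : ∀ a : Fin 8, rim p q r r' F1 F2 F3 F4 a ≠ Sum.inl z := by
      intro a
      fin_cases a <;> simp [rim] <;> first | exact zp.ne.symm | exact zq.ne.symm | exact zr.ne.symm | exact zs.ne.symm
    exact key
  · have key : ∀ a : Fin 8, (plus (dl G p q) {v}ᶜ).Adj (rim p q r r' F1 F2 F3 F4 (zi a))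
        (rim p q r r' F1 F2 F3 F4 (zi a + 1)) := by
      intro a
      fin_cases a
      · exact h.p1
      · exact h.r1
      · exact h.r2
      · exact h.q2
      · exact h.q3
      · exact h.s3
      · exact h.s4
      · exact h.p4
    exact key
  · have key : ∀ a : Fin 8, (plus (dl G p q) {v}ᶜ).Adj (Sum.inl z) (rim p q r r' F1 F2 F3 F4 a) := by
      intro a
      fin_cases a
      · exact hadj p zp n1.symm
      · exact h.z1
      · exact hadj r zr n3.symm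
      · exact h.z2
      · exact hadj q zq n2.symm
      · exact h.z3
      · exact hadj r' zs n4.symm
      · exact h.z4
    exact key
  · rw [Set.disjoint_left]
    rintro (x | x) hx hy
    · exact Set.disjoint_left.1 dAB (inl_mk hx) (inl_mk hy)
    · exact Set.disjoint_left.1 dTS (inr_mk hx) (inr_mk hy)
  · exact fun hz => zA (inl_mk hz)
  · exact fun hz => zB (inl_mk hz)
  · have m1 := mem_rim h.i1 h.i2 h.i3 h.i4 oi
    have m2 := mem_rim h.i1 h.i2 h.i3 h.i4 oj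
    have m3 := mem_rim h.i1 h.i2 h.i3 h.i4 ok
    have m4 := mem_rim h.i1 h.i2 h.i3 h.i4 ol
    refine ⟨zi i, j.val - i.val, k.val - i.val, l.val - i.val, ?_, ?_, ?_, ?_, m1, ?_, ?_, ?_⟩
    · have := Fin.lt_def.1 hij; omega
    · have := Fin.lt_def.1 hij; have := Fin.lt_def.1 hjk; omega
    · have := Fin.lt_def.1 hij; have := Fin.lt_def.1 hjk; have := Fin.lt_def.1 hkl; omega
    · have := l.isLt; have := Fin.lt_def.1 hij; have := Fin.lt_def.1 hjk; have := Fin.lt_def.1 hkl; omega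
    · rw [rimpos i j hij]; exact m2
    · rw [rimpos i k (hij.trans hjk)]; exact m3
    · rw [rimpos i l (hij.trans (hjk.trans hkl))]; exact m4

end Pool.Agent.Helper85.MA
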