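import Pool.Agent.Helper12.MA.StB

/-!
# Project MA, module SYM
-/

set_option autoImplicit false

namespace Pool.Agent.Helper85.MA

open Pool.Agent.Helper12.MA
open Pool.Agent.Helper51.AJ (IsMinor Planar Apex ExMinor Con Tch)
open Pool.Agent.Helper12.NK (rst Kc add cnt Pcy IsFace Cof plus)

private theorem dlc {V : Type} (G : SimpleGraph V) (p q : V) : dl G q p = dl G p q := by
  ext a b
  show (G.Adj a b ∧ ¬ (a = q ∧ b = p) ∧ ¬ (a = p ∧ b = q)) ↔
    (G.Adj a b ∧ ¬ (a = p ∧ b = q) ∧ ¬ (a = q ∧ b = p))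
  tauto

private theorem cofc {V : Type} {M : SimpleGraph V} {U : Set V} {a b : V} (h : Cof M U a b) :
    Cof M U b a := by
  obtain ⟨F, hF, ha, hb⟩ := h
  exact ⟨F, hF, hb, ha⟩

theorem hSYM0 : StSYM := by
  intro V _ G z v p q r r' f1 f2 f3 f4 h
  obtain ⟨n1, n2, n3, n4, n5, n6, n7, n8, n9, n10⟩ := h.ds.ne
  refine ⟨?_, ?_, ?_, ?_⟩
  · have hD : dl G q p = dl G p q := dlc G p q
    refine ⟨h.bh, ⟨?_, ?_, h.ds.pq.symm, ?_⟩, ?_, ?_, ?_, ?_, h.z3, h.z4, h.z1, h.z2, h.q3, h.s3,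
      h.s4, h.p4, h.p1, h.r1, h.r2, h.q2, h.x34, h.x41, h.x12, h.x23, ?_, ?_, ?_, ?_⟩
    · intro a
      rw [h.ds.nb a]
      tauto
    · exact ⟨n2, n1, n4, n3, n5.symm, n9, n8, n7, n6, n10.symm⟩
    · rw [hD]; exact h.ds.pl
    · rw [hD]; exact h.i3
    · rw [hD]; exact h.i4
    · rw [hD]; exact h.i1
    · rw [hD]; exact h.i2
    · rw [Set.inter_comm]; exact h.x13
    · rw [Set.inter_comm]; exact h.x24
    · intro f hf hz
      rw [hD] at hf
      rcases h.all f hf hz with k | k | k | k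
      · exact Or.inr (Or.inr (Or.inl k))
      · exact Or.inr (Or.inr (Or.inr k))
      · exact Or.inl k
      · exact Or.inr (Or.inl k)
    · rw [hD]
      exact fun k => h.npq (cofc k)
  · refine ⟨h.bh, ⟨?_, ?_, h.ds.pq, h.ds.pl⟩, h.i4, h.i3, h.i2, h.i1, h.z4, h.z3, h.z2, h.z1,
      h.p4, h.s4, h.s3, h.q3, h.q2, h.r2, h.r1, h.p1, ?_, ?_, ?_, ?_, ?_, ?_, ?_, h.npq⟩
    · intro a
      rw [h.ds.nb a]
      tauto
    · exact ⟨n1, n2, n4, n3, n5, n7, n6, n9, n8, n10.symm⟩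
    · rw [Set.inter_comm]; exact h.x34
    · rw [Set.inter_comm]; exact h.x23
    · rw [Set.inter_comm]; exact h.x12
    · rw [Set.inter_comm]; exact h.x41
    · rw [Set.inter_comm]; exact h.x24
    · rw [Set.inter_comm]; exact h.x13
    · intro f hf hz
      rcases h.all f hf hz with k | k | k | k
      · exact Or.inr (Or.inr (Or.inr k))
      · exact Or.inr (Or.inr (Or.inl k))
      · exact Or.inr (Or.inl k)
      · exact Or.inl k
  · intro t Γ k
    exact ⟨⟨k.tv, k.tz, k.tq, k.tp, k.ts, k.tr, k.pl, k.fa, k.z, k.s, k.r, k.q, k.p⟩,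
      ⟨k.tv, k.tz, k.tp, k.tq, k.ts, k.tr, k.pl, k.fa, k.z, k.s, k.r, k.p, k.q⟩⟩
  · intro σ b X Y k
    have hQ : ({v, z, b, σ} : Set V) = {v, z, σ, b} := by
      ext a
      simp only [Set.mem_insert_iff, Set.mem_singleton_iff]
      tauto
    refine ⟨?_, k.bf, k.sf, k.rY, k.sX⟩
    rw [hQ]
    exact ⟨k.sep.card, by rw [Set.union_comm]; exact k.sep.cov, k.sep.dis.symm, k.sep.yR, k.sep.xL,
      k.sep.adj.symm, fun a ha c hc hac => (k.sep.only c hc a ha hac.symm).symm⟩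

theorem hSYM : StSPB → StSYM := fun _ => hSYM0

end Pool.Agent.Helper85.MA
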